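import Pool.Agent.Q7.CF.Stm3
import Pool.Agent.Q123.CF.Inj

set_option autoImplicit false

/-!
# Project CF (helper7), job GST: the global step (the CJ proof with `BQ p r D` instead of `BR p D`)
-/

open Polynomial Pool.Agent.Q7.CF
open Pool.Agent.Q7.CJ (GalF)

namespace Pool.Agent.Q211.CF

theorem gst (_ : S_DED) (hNMM : S_NMM) (hBC : S_BC) (hD4H : S_D4H) (hDIC : S_DIC) (_ : S_FUN) (hSTR : S_STR) :
    S_GST := by
  intro p r _ hok F _ _ ζ hζ D hD α a h ha hα hh j hj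
  obtain ⟨c, hc⟩ := hj
  have hp := (Fact.out (p := p.Prime))
  have hr1 := hok.h1
  have hr2 := hok.h2
  have : CharZero (AlgebraicClosure F) := charZero_of_injective_algebraMap (algebraMap F (AlgebraicClosure F)).injective
  obtain ⟨d1, d2, d3, d4, d5, d6, d7, d8⟩ := hDIC p r F D hD (AlgebraicClosure F)
  obtain ⟨-, s2, -, s4, -, -⟩ := hSTR p r F ζ hζ.pow_eq_one hζ D hD (AlgebraicClosure F)
  have hz1 : (algebraMap F (AlgebraicClosure F) ζ) ^ p = 1 := by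
    rw [← map_pow, hζ.pow_eq_one, map_one]
  have hζM : IsPrimitiveRoot (algebraMap F (AlgebraicClosure F) ζ) p :=
    hζ.map_of_injective (algebraMap F (AlgebraicClosure F)).injective
  obtain ⟨nmul, none, -, -, nt2, -, -, -, -, t20, -⟩ := hNMM p r F D hD
  have hpow : ∀ n : ℕ, t2 p r D ^ n ≠ ⊥ ∧ nm p r D (t2 p r D ^ n) = D ^ n := by
    intro n
    induction n with
    | zero =>
      rw [pow_zero, pow_zero, Ideal.one_eq_top]
      exact ⟨top_ne_bot, none⟩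
    | succ n ih =>
      refine ⟨?_, ?_⟩
      · rw [pow_succ, Ne, ← Ideal.zero_eq_bot, mul_eq_zero, Ideal.zero_eq_bot, not_or]
        exact ⟨ih.1, t20⟩
      · rw [pow_succ, (nmul _ _ ih.1 t20).1, ih.2, pow_succ, nt2]
  obtain ⟨m, t, hm⟩ : ∃ m t : ℕ, m * (r + 1) = j * r ^ 2 + t * p := by
    have hco : Nat.Coprime (r + 1) p := by
      refine (Nat.Coprime.symm ((Nat.Prime.coprime_iff_not_dvd hp).2 fun hd => ?_))
      have := Nat.le_of_dvd (by omega) hd
      omega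
    obtain ⟨s, -, hs⟩ := Nat.exists_mul_mod_eq_one_of_coprime hco hp.one_lt
    refine ⟨s * (j * r ^ 2), (r + 1) * s / p * (j * r ^ 2), ?_⟩
    have h1 := Nat.div_add_mod ((r + 1) * s) p
    rw [hs] at h1
    calc s * (j * r ^ 2) * (r + 1) = ((r + 1) * s) * (j * r ^ 2) := by ring
      _ = (p * ((r + 1) * s / p) + 1) * (j * r ^ 2) := by rw [h1]
      _ = _ := by ring
  set I := t2 p r D ^ m with hI
  have hI0 : I ≠ ⊥ := (hpow m).1
  have hnI : nm p r D I = D ^ m := (hpow m).2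
  have hnI0 : nm p r D I ≠ 0 := by
    rw [hnI]
    exact pow_ne_zero _ hD
  set IM := I.map (bc p r (algebraMap F (AlgebraicClosure F)) D (algebraMap F (AlgebraicClosure F) D) rfl) with hIM
  have hIM0 : IM ≠ ⊥ := ((hBC p r F (AlgebraicClosure F) _ D _ rfl hD).2 I hI0).1
  obtain ⟨PI, hPI⟩ := d2 IM hIM0
  obtain ⟨R, hR⟩ := s4 inferInstance PI
  obtain ⟨J, hJ⟩ := d1 R
  have hJ0 := d3 R J hJ
  have hs2 : Sim (IM * J.map (sg p r (algebraMap F (AlgebraicClosure F) D) (algebraMap F (AlgebraicClosure F) ζ) hz1)) J := by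
    have h1 := (d4 _ _ _ _ hPI (d7 ζ hζ.pow_eq_one hz1 R J hJ)).2
    rw [← hR, sub_add_cancel] at h1
    exact (d4 _ _ _ _ h1 hJ).1.1 rfl
  obtain ⟨ρ, hρ0, ⟨ν, hν0, hρ⟩, hρτ⟩ := hD4H p r F ζ hζ D hD I hI0 hnI0 (AlgebraicClosure F)
    (algebraMap F (AlgebraicClosure F)) (algebraMap F (AlgebraicClosure F) D) rfl hz1 J hJ0 hs2
  -- the classes of the powers of `t1`
  have hT : ∀ n : ℕ, IsCls p r D (n • tT p r D (AlgebraicClosure F)) (t1 p r (algebraMap F (AlgebraicClosure F) D) ^ n) := by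
    intro n
    induction n with
    | zero =>
      rw [zero_nsmul, pow_zero, Ideal.one_eq_top]
      exact d5
    | succ n ih =>
      rw [succ_nsmul, pow_succ]
      exact (d4 _ _ _ _ ih d6).2
  have hα0 : α ≠ 0 := by
    rintro rfl
    rw [zero_pow hp.ne_zero] at hα
    exact ha ((map_eq_zero _).1 hα.symm)
  have hc0 : c ≠ 0 := by
    rintro rfl
    rw [zero_pow hp.ne_zero] at hc
    exact mul_ne_zero ha (pow_ne_zero _ hD) hc
  have hu0 : c ^ (r ^ 2) * D ^ t * ν ≠ 0 := mul_ne_zero (mul_ne_zero (pow_ne_zero _ hc0) (pow_ne_zero _ hD)) hν0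
  have hpw : (ρ * α ^ (r ^ 2)) ^ p = algebraMap F (AlgebraicClosure F) (c ^ (r ^ 2) * D ^ t * ν) ^ p := by
    rw [mul_pow, hρ, ← pow_mul, mul_comm (r ^ 2) p, pow_mul, hα, ← map_pow, ← map_mul, ← map_pow, hnI, ← pow_mul, hm]
    congr 1
    have h1 : (c ^ (r ^ 2)) ^ p = (a * D ^ j) ^ (r ^ 2) := by
      rw [← pow_mul, mul_comm, pow_mul, ← hc]
    rw [mul_pow, mul_pow, h1]
    ring
  obtain ⟨i, -, hi⟩ := hζM.eq_pow_of_pow_eq_one
    (ξ := ρ * α ^ (r ^ 2) / algebraMap F (AlgebraicClosure F) (c ^ (r ^ 2) * D ^ t * ν)) (by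
    rw [div_pow, hpw, div_self (pow_ne_zero _ ((_root_.map_ne_zero _).2 hu0))])
  have hb : algebraMap F (AlgebraicClosure F) (ζ ^ i * (c ^ (r ^ 2) * D ^ t * ν)) = ρ * α ^ (r ^ 2) := by
    rw [map_mul, map_pow, hi, div_mul_cancel₀ _ ((_root_.map_ne_zero _).2 hu0)]
  refine ⟨R, fun τ => ?_⟩
  have hτD : (((τ : AlgebraicClosure F →ₐ[F] AlgebraicClosure F) : AlgebraicClosure F →+* AlgebraicClosure F))
      (algebraMap F (AlgebraicClosure F) D) = algebraMap F (AlgebraicClosure F) D := τ.commutes D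
  have hbij : Function.Bijective
      (((τ : AlgebraicClosure F →ₐ[F] AlgebraicClosure F) : AlgebraicClosure F →+* AlgebraicClosure F)) :=
    τ.bijective
  obtain ⟨⟨k, hk⟩, hρk⟩ := hρτ (((τ : AlgebraicClosure F →ₐ[F] AlgebraicClosure F) :
    AlgebraicClosure F →+* AlgebraicClosure F)) hbij (fun x => τ.commutes x) hτD
  have h5 : ρ = algebraMap F (AlgebraicClosure F) ζ ^ (r ^ 2 * k) * τ ρ := hρk k hk
  have h2 := d8 (AlgebraicClosure F) (τ : AlgebraicClosure F →ₐ[F] AlgebraicClosure F) R J hJ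
  have h3 := (d4 _ _ _ _ hJ (hT k)).2
  have h4 : act p r D (τ : AlgebraicClosure F →ₐ[F] AlgebraicClosure F) R = R + k • tT p r D (AlgebraicClosure F) :=
    (d4 _ _ _ _ h2 h3).1.2 hk
  have h6 : τ ρ * (τ α) ^ (r ^ 2) = ρ * α ^ (r ^ 2) := by
    rw [← map_pow, ← map_mul, ← hb]
    exact τ.commutes _
  have hτρ : τ ρ ≠ 0 := by
    rw [Ne, map_eq_zero_iff _ τ.injective]
    exact hρ0
  have hcor : Nat.Coprime (r ^ 2) p := by
    refine Nat.Coprime.pow_left 2 ((Nat.Prime.coprime_iff_not_dvd hp).2 fun hd => ?_).symm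
    have := Nat.le_of_dvd (by omega) hd
    omega
  have hζr := hζM.pow_of_coprime (r ^ 2) hcor
  have h7 : (algebraMap F (AlgebraicClosure F) ζ ^ (r ^ 2)) ^ h τ = (algebraMap F (AlgebraicClosure F) ζ ^ (r ^ 2)) ^ k := by
    rw [hh τ] at h6
    rw [← pow_mul, ← pow_mul]
    have h8 : τ ρ * α ^ (r ^ 2) * algebraMap F (AlgebraicClosure F) ζ ^ (r ^ 2 * h τ) =
        τ ρ * α ^ (r ^ 2) * algebraMap F (AlgebraicClosure F) ζ ^ (r ^ 2 * k) := by
      calc _ = τ ρ * (algebraMap F (AlgebraicClosure F) ζ ^ h τ * α) ^ (r ^ 2) := by ring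
        _ = ρ * α ^ (r ^ 2) := h6
        _ = algebraMap F (AlgebraicClosure F) ζ ^ (r ^ 2 * k) * τ ρ * α ^ (r ^ 2) := by rw [← h5]
        _ = _ := by ring
    exact mul_left_cancel₀ (mul_ne_zero hτρ (pow_ne_zero _ hα0)) h8
  have h8 : h τ ≡ k [MOD p] := by
    have h9 : ∀ n : ℕ, (algebraMap F (AlgebraicClosure F) ζ ^ (r ^ 2)) ^ n =
        (algebraMap F (AlgebraicClosure F) ζ ^ (r ^ 2)) ^ (n % p) := by
      intro n
      conv_rhs => rw [hζr.eq_orderOf]
      exact (pow_mod_orderOf _ n).symm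
    rw [h9 (h τ), h9 k] at h7
    exact hζr.pow_inj (Nat.mod_lt _ hp.pos) (Nat.mod_lt _ hp.pos) h7
  have h9 : ∀ n : ℕ, n • tT p r D (AlgebraicClosure F) = (n % p) • tT p r D (AlgebraicClosure F) := by
    intro n
    conv_lhs => rw [← Nat.div_add_mod n p, add_nsmul, mul_comm p, mul_nsmul', s2, nsmul_zero, zero_add]
  rw [h4, add_sub_cancel_left, h9 (h τ), h9 k, h8]

end Pool.Agent.Q211.CF
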