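import Pool.Agent.Q7.CF.Stm3
import Pool.Agent.Q53.CF.H90
import Pool.Agent.Q123.CF.Inj
import Pool.Agent.Q285.CF.FUN
import Pool.Agent.Q211.CJ.STR

set_option autoImplicit false
set_option linter.unusedSectionVars false

/-!
# Project CF (helper7), job STR: the structure of the points (the CJ proof with `BQ p r D` instead of `BR p D`)
-/

open Polynomial Pool.Agent.Q7.CF

namespace Pool.Agent.Q211.CF

open Pool.Agent.Q53.CF.H90 (sgi_zero sg_comp_sgi)
open Pool.Agent.Q123.CF (sim_map sim_symm)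
open Pool.Agent.Q285.CFFUN (bF_sF bF_comp bF_id)
open Pool.Agent.Q211.CJ (alg_lem)

section

variable {p r : ℕ} [hp : Fact p.Prime]

theorem bc_comp' {L M : Type} [Field L] [Field M] (φ : L →+* M) (ψ : M →+* L) (hψ : ∀ x, ψ (φ x) = x) (D : L) (D' : M)
    (h : φ D = D') (h' : ψ D' = D) : (bc p r ψ D' D h').comp (bc p r φ D D' h) = RingHom.id (BQ p r D) := by
  refine RingHom.ext fun z => Subtype.ext ?_
  rw [RingHom.comp_apply, bc_val, bc_val]
  have h1 := bF_comp p φ ψ (RingHom.id L) (fun x => (hψ x).symm) D D' D h h' rfl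
  have h2 := RingHom.congr_fun h1 (z : RF p D)
  rw [bF_id p (RingHom.id L) (fun _ => rfl) D rfl] at h2
  exact h2

theorem bc_sg {L M : Type} [Field L] [Field M] (ψ : M →+* L) (D : L) (D' : M) (h' : ψ D' = D) (z : M) (z' : L)
    (hzz : ψ z = z') (hz : z ^ p = 1) (hz' : z' ^ p = 1) :
    (bc p r ψ D' D h').comp (sg p r D' z hz) = (sg p r D z' hz').comp (bc p r ψ D' D h') := by
  refine RingHom.ext fun x => Subtype.ext ?_
  exact bF_sF p ψ D' D h' z z' hzz hz hz' (x : RF p D')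

theorem span_ne {B : Type} [CommRing B] [IsDomain B] {b : B} (hb : b ≠ 0) : Sim (Ideal.span {b}) (⊤ : Ideal B) :=
  ⟨1, b, one_ne_zero, hb, by rw [Ideal.span_singleton_one, Ideal.top_mul, Ideal.mul_top]⟩

end

theorem str (_ : S_DED) (hNMM : S_NMM) (hNI : S_NI) (hAMB : S_AMB) (hCLOS : S_CLOS) (hD4H : S_D4H) (hDIC : S_DIC)
    (_ : S_FUN) : S_STR := by
  intro p r _ hok F _ _ ζ hζ1 hζ D hD L _ _
  have hp := (Fact.out (p := p.Prime))
  have hp2 : p ≠ 2 := by
    have := hok.h1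
    have := hok.h2
    omega
  have : CharZero L := charZero_of_injective_algebraMap (algebraMap F L).injective
  obtain ⟨d1, d2, d3, d4, d5, d6, d7, d8⟩ := hDIC p r F D hD L
  set DL := algebraMap F L D with hDL
  have hDL0 : DL ≠ 0 := (_root_.map_ne_zero _).2 hD
  set ζL := algebraMap F L ζ with hζL
  have hz1 : ζL ^ p = 1 := by
    rw [hζL, ← map_pow, hζ1, map_one]
  have hζL' : IsPrimitiveRoot ζL p := hζ.map_of_injective (algebraMap F L).injective
  obtain ⟨-, none, -, -, -, -, -, -, -, -, -, -, h1p, -, -⟩ := hNMM p r L DL hDL0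
  set s : Jp p r D L →+ Jp p r D L := om p r D ζ hζ1 L with hs
  -- principal ideals
  have hprin : ∀ (P : Jp p r D L) (b : BQ p r DL), IsCls p r D P (Ideal.span {b}) → P = 0 := by
    intro P b hP
    have hb : b ≠ 0 := by
      rintro rfl
      exact d3 _ _ hP (by rw [Ideal.span_singleton_eq_bot])
    exact (d4 _ _ _ _ hP d5).1.2 (span_ne hb)
  have hT : ∀ (n : ℕ), IsCls p r D (n • tT p r D L) (t1 p r DL ^ n) := by
    intro n
    induction n with
    | zero =>
      rw [zero_nsmul, pow_zero, Ideal.one_eq_top]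
      exact d5
    | succ n ih =>
      rw [succ_nsmul, pow_succ]
      exact (d4 _ _ _ _ ih d6).2
  have hpT : p • tT p r D L = 0 := by
    have h1 := hT p
    rw [h1p] at h1
    exact hprin _ _ h1
  have hN : ∀ P : Jp p r D L, ∑ i ∈ Finset.range p, s^[i] P = 0 := by
    intro P
    obtain ⟨I, hI⟩ := d1 P
    obtain ⟨g, -, hprod, -⟩ := hNI p r L ζL hz1 hζL' DL hDL0 I (d3 _ _ hI)
    have h1 : ∀ i : ℕ, IsCls p r D (s^[i] P) (I.map (sgi p r DL ζL hz1 i)) := by
      intro i
      induction i with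
      | zero =>
        have h2 : I.map (sgi p r DL ζL hz1 0) = I := by
          rw [sgi_zero]
          exact Ideal.map_id I
        rw [h2]
        exact hI
      | succ i ih =>
        have h4 : I.map (sgi p r DL ζL hz1 (i + 1)) = (I.map (sgi p r DL ζL hz1 i)).map (sg p r DL ζL hz1) := by
          rw [← sg_comp_sgi]
          exact (Ideal.map_map _ _).symm
        rw [h4, Function.iterate_succ_apply']
        exact d7 ζ hζ1 hz1 _ _ ih
    have h2 : ∀ n : ℕ, IsCls p r D (∑ i ∈ Finset.range n, s^[i] P)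
        (∏ i ∈ Finset.range n, I.map (sgi p r DL ζL hz1 i)) := by
      intro n
      induction n with
      | zero =>
        rw [Finset.range_zero, Finset.sum_empty, Finset.prod_empty, Ideal.one_eq_top]
        exact d5
      | succ n ih =>
        rw [Finset.sum_range_succ, Finset.prod_range_succ]
        exact (d4 _ _ _ _ ih (h1 n)).2
    have h3 := h2 p
    rw [hprod] at h3
    exact hprin _ _ h3
  refine ⟨hN, hpT, ?_, ?_, ?_, ?_⟩
  · intro P hP
    obtain ⟨I, hI⟩ := d1 P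
    have h1 := d7 ζ hζ1 hz1 P I hI
    rw [← hs, hP] at h1
    have h2 := (d4 _ _ _ _ h1 hI).1.1 rfl
    obtain ⟨j, hj⟩ := hAMB p r L ζL hz1 hζL' DL hDL0 I (d3 _ _ hI) h2
    exact ⟨j, (d4 _ _ _ _ hI (hT j)).1.2 hj⟩
  · intro hcl P
    obtain ⟨I, hI⟩ := d1 P
    obtain ⟨M, _, _, hfin, -, hM⟩ := hCLOS p r L ζL hζL' DL hDL0 I (d3 _ _ hI)
    have hzM : (algebraMap L M ζL) ^ p = 1 := by rw [← map_pow, hz1, map_one]
    obtain ⟨J, hJ, hsim⟩ := hM hzM
    have hbij : Function.Bijective (algebraMap L M) := IsAlgClosed.algebraMap_bijective_of_isIntegral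
    let e : L ≃+* M := RingEquiv.ofBijective (algebraMap L M) hbij
    let ψ : M →+* L := (e.symm : M →+* L)
    have hψ : ∀ x : L, ψ (algebraMap L M x) = x := fun x => e.symm_apply_apply x
    have hinj : Function.Injective (bc p r ψ (algebraMap L M DL) DL (hψ DL)) := bc_injective p r ψ _ _ _
    set J' := J.map (bc p r ψ (algebraMap L M DL) DL (hψ DL)) with hJ'
    have hJ'0 : J' ≠ ⊥ := by
      rw [hJ', Ne, Ideal.map_eq_bot_iff_of_injective hinj]
      exact hJ
    have h1 := sim_map hsim _ hinj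
    rw [Ideal.map_mul, Ideal.map_map, bc_comp' (algebraMap L M) ψ hψ DL _ rfl (hψ DL)] at h1
    have h2 : (J.map (sg p r (algebraMap L M DL) (algebraMap L M ζL) hzM)).map
        (bc p r ψ (algebraMap L M DL) DL (hψ DL)) = J'.map (sg p r DL ζL hz1) := by
      rw [hJ', Ideal.map_map, Ideal.map_map,
        bc_sg ψ DL (algebraMap L M DL) (hψ DL) (algebraMap L M ζL) ζL (hψ ζL) hzM hz1]
    rw [h2] at h1
    obtain ⟨Q, hQ⟩ := d2 J' hJ'0
    have h3 := (d4 _ _ _ _ hI (d7 ζ hζ1 hz1 Q J' hQ)).2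
    have h4 : Sim (I * J'.map (sg p r DL ζL hz1)) J' := by
      have h5 : I.map (RingHom.id (BQ p r DL)) = I := Ideal.map_id I
      rw [h5] at h1
      exact h1
    have h5 := (d4 _ _ _ _ h3 hQ).1.2 h4
    refine ⟨Q, ?_⟩
    rw [← hs] at h5
    rw [sub_eq_iff_eq_add]
    exact h5.symm
  · intro j hj
    by_contra hpj
    have hco : Nat.Coprime p j := (Nat.Prime.coprime_iff_not_dvd hp).2 hpj
    have hT0 : tT p r D L = 0 := by
      have h1 : addOrderOf (tT p r D L) ∣ p := addOrderOf_dvd_of_nsmul_eq_zero hpT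
      have h2 : addOrderOf (tT p r D L) ∣ j := addOrderOf_dvd_of_nsmul_eq_zero hj
      have h3 : addOrderOf (tT p r D L) ∣ 1 := by
        rw [← hco.gcd_eq_one]
        exact Nat.dvd_gcd h1 h2
      rw [Nat.dvd_one, AddMonoid.addOrderOf_eq_one_iff] at h3
      exact h3
    have h1 : Sim (t1 p r DL) ⊤ := by
      have h2 := d6
      rw [hT0] at h2
      exact (d4 _ _ _ _ h2 d5).1.1 rfl
    have hn1 : nm p r DL ⊤ ≠ 0 := by
      rw [none]
      exact one_ne_zero
    have hsim : Sim ((⊤ : Ideal (BQ p r DL)).map (bc p r (RingHom.id L) DL DL rfl) *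
        (⊤ : Ideal (BQ p r DL)).map (sg p r DL ((RingHom.id L) ζL) hz1)) ⊤ := by
      rw [Ideal.map_top, Ideal.map_top, Ideal.mul_top]
      exact ⟨1, 1, one_ne_zero, one_ne_zero, rfl⟩
    obtain ⟨ρ, hρ, -, hτ⟩ := hD4H p r L ζL hζL' DL hDL0 ⊤ top_ne_bot hn1 L (RingHom.id L) DL rfl hz1 ⊤ top_ne_bot hsim
    have h3 := (hτ (RingHom.id L) Function.bijective_id (fun x => rfl) rfl).2 1 (by
      rw [Ideal.map_top, Ideal.top_mul, pow_one]
      exact sim_symm h1)
    have h4 : ζL ^ (r ^ 2) = 1 := by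
      have h5 : ρ = ζL ^ (r ^ 2 * 1) * ρ := h3
      rw [mul_one] at h5
      exact (mul_right_cancel₀ hρ (by rw [one_mul]; exact h5)).symm
    have h6 : p ∣ r ^ 2 := (hζL'.pow_eq_one_iff_dvd _).1 h4
    have h7 : p ∣ r := hp.dvd_of_dvd_pow h6
    have h8 := Nat.le_of_dvd hok.h1 h7
    have h9 := hok.h2
    omega
  · exact alg_lem p hp2 _ _ hN

end Pool.Agent.Q211.CF
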